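import Pool.Agent.Helper80.RV.Defs

/-!
# RV6f: the Weil function of an ideal at the places of the residue field
-/

set_option autoImplicit false
set_option linter.unusedSectionVars false

namespace Pool.Agent.SQ.RV

open NumberField Filter Module MvPolynomial
open Pool.Agent.Helper64.Vojta (Pl nv sn above)
open Pool.Agent.Helper52.Vojta (ldeg)
open Pool.Agent.V2
open Pool.Agent.Chart (fld dg crd hgt)

universe u

section

variable {k : Type u} [Field k] [NumberField k] {N : ℕ}

private theorem val_crd_j (x : Fin (N + 1) → AlgebraicClosure k) (f : MvPolynomial (Fin (N + 1)) k) :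
    ((aeval (crd x) f : fld x) : AlgebraicClosure k) = aeval x f := by
  have h1 := MvPolynomial.comp_aeval_apply (f := crd x) (fld x).val f
  exact h1

private theorem val_y_j (x : Fin (N + 1) → AlgebraicClosure k) (y : Fin (N + 1) → gal x)
    (hy : ∀ j, (y j : AlgebraicClosure k) = x j) (f : MvPolynomial (Fin (N + 1)) k) :
    ((aeval y f : gal x) : AlgebraicClosure k) = aeval x f := by
  have h1 := MvPolynomial.comp_aeval_apply (f := y) (gal x).val f
  have h2 : (fun j => (gal x).val (y j)) = x := funext hy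
  rw [h2] at h1
  exact h1

private theorem y_iff_j (x : Fin (N + 1) → AlgebraicClosure k) (y : Fin (N + 1) → gal x)
    (hy : ∀ j, (y j : AlgebraicClosure k) = x j) (f : MvPolynomial (Fin (N + 1)) k) :
    aeval y f = 0 ↔ aeval (crd x) f = 0 := by
  have h1 : aeval y f = 0 ↔ aeval x f = 0 := by
    rw [← val_y_j x y hy f]
    exact ZeroMemClass.coe_eq_zero.symm
  have h2 : aeval (crd x) f = 0 ↔ aeval x f = 0 := by
    rw [← val_crd_j x f]
    exact ZeroMemClass.coe_eq_zero.symm
  rw [h1, h2]

end

section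

variable {k : Type u} [Field k] [NumberField k] {G : Type} [Group G] [Fintype G] {N e : ℕ}

/-- RV6f: at the places of the residue field (`hl` is the last part of `exists_seq_ld`) -/
theorem lamJ_gamJ (x : Fin (N + 1) → AlgebraicClosure k) (hx : ∃ j, x j = 1) (y : Fin (N + 1) → gal x)
    (hyx : ∀ j, (y j : AlgebraicClosure k) = x j) (M : Pl k → gal x → ℝ) (s : G →* (gal x ≃ₐ[k] gal x)) (hs : QSG s M)
    (v : Pl k) (g : G) (w : Pl (fld x)) (hw : w ∈ above (fld x) v)
    (hl : ∀ (d : ℕ) (f : MvPolynomial (Fin (N + 1)) k), aeval (crd x) f ≠ 0 →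
      dg x * lamW d f x w = ldeg v w * (d * Real.log (mxn (M v) fun j => s g (y j)) - Real.log (M v (s g (aeval y f)))))
    (d : Fin e → ℕ) (f : Fin e → MvPolynomial (Fin (N + 1)) k) (hf : ∃ j, aeval (crd x) (f j) ≠ 0) :
    dg x * lamJ d f x w = ldeg v w * gamJ s M y d f v g := by
  classical
  obtain ⟨j1, hj1⟩ := hf
  have : Nonempty (Fin e) := ⟨j1⟩
  have hne : ldeg v w ≠ 0 := Pool.Agent.QP.ldeg_ne_zero hw
  have hfd : FiniteDimensional k (fld x) :=
    IntermediateField.finiteDimensional_adjoin fun x _ => Algebra.IsIntegral.isIntegral x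
  have hdg : (dg x : ℝ) ≠ 0 := by
    have h1 : 0 < dg x := finrank_pos (R := k) (M := fld x)
    exact_mod_cast h1.ne'
  obtain ⟨j0, hj0⟩ := hx
  have hcr : crd x j0 ≠ 0 := by
    intro h
    have h1 : ((crd x j0 : fld x) : AlgebraicClosure k) = x j0 := rfl
    rw [h, hj0] at h1
    exact zero_ne_one h1
  have hsn : 0 < sn w (crd x) :=
    Pool.Agent.Helper64.Vojta.sn_pos w (fun h => hcr (congrFun h j0))
  have hy1 : s g (y j0) ≠ 0 := by
    intro h
    have h1 : y j0 = 0 := by
      have h2 := (s g).injective (h.trans (map_zero (s g)).symm)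
      exact h2
    have h2 := hyx j0
    rw [h1, hj0] at h2
    exact zero_ne_one h2
  have hmx : 0 < mxn (M v) fun l => s g (y l) :=
    (hs.pos v _ hy1).trans_le (le_ciSup (Set.finite_range fun l => M v (s g (y l))).bddAbove j0)
  have key : ∀ j, nv w (aeval (crd x) (f j)) / sn w (crd x) ^ d j =
      (M v (s g (aeval y (f j))) / (mxn (M v) fun l => s g (y l)) ^ d j) ^ ldeg v w := by
    intro j
    by_cases h0 : aeval (crd x) (f j) = 0
    · have h1 : aeval y (f j) = 0 := (y_iff_j x y hyx _).2 h0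
      rw [h0, h1, Pool.Agent.Helper64.Vojta.nv_zero, map_zero, hs.zero, zero_div, zero_div, zero_pow hne]
    · have h1 : aeval y (f j) ≠ 0 := fun h => h0 ((y_iff_j x y hyx _).1 h)
      have h2 : s g (aeval y (f j)) ≠ 0 := by
        intro h
        exact h1 ((s g).injective (h.trans (map_zero (s g)).symm))
      have h3 := hl (d j) (f j) h0
      unfold lamW at h3
      rw [mul_div_cancel₀ _ hdg] at h3
      have h4 : 0 < nv w (aeval (crd x) (f j)) := Pool.Agent.Helper64.Vojta.nv_pos w h0
      have h5 : 0 < M v (s g (aeval y (f j))) := hs.pos v _ h2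
      refine Real.log_injOn_pos (Set.mem_Ioi.2 (div_pos h4 (pow_pos hsn _)))
        (Set.mem_Ioi.2 (pow_pos (div_pos h5 (pow_pos hmx _)) _)) ?_
      rw [Real.log_pow, Real.log_div h4.ne' (pow_pos hsn _).ne', Real.log_div h5.ne' (pow_pos hmx _).ne', Real.log_pow,
        Real.log_pow]
      linarith
  have hb0 : ∀ j, 0 ≤ M v (s g (aeval y (f j))) / (mxn (M v) fun l => s g (y l)) ^ d j := by
    intro j
    refine div_nonneg ?_ (pow_pos hmx _).le
    by_cases h0 : s g (aeval y (f j)) = 0
    · rw [h0, hs.zero]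
    · exact (hs.pos v _ h0).le
  obtain ⟨i0, hi0⟩ := exists_eq_ciSup_of_finite
    (f := fun j => M v (s g (aeval y (f j))) / (mxn (M v) fun l => s g (y l)) ^ d j)
  have hsup : (⨆ j, nv w (aeval (crd x) (f j)) / sn w (crd x) ^ d j) =
      (⨆ j, M v (s g (aeval y (f j))) / (mxn (M v) fun l => s g (y l)) ^ d j) ^ ldeg v w := by
    refine le_antisymm (ciSup_le fun j => ?_) ?_
    · rw [key j]
      exact pow_le_pow_left₀ (hb0 j) (le_ciSup (Set.finite_range
        fun j => M v (s g (aeval y (f j))) / (mxn (M v) fun l => s g (y l)) ^ d j).bddAbove j) _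
    · rw [← hi0, ← key i0]
      exact le_ciSup (Set.finite_range fun j => nv w (aeval (crd x) (f j)) / sn w (crd x) ^ d j).bddAbove i0
  unfold lamJ gamJ
  rw [hsup, Real.log_pow, mul_div_cancel₀ _ hdg]
  ring

end

end Pool.Agent.SQ.RV
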